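import Pool.Agent.N463.HW.Stm

/-!
# HW/DER: the derivative of the series `g`
-/

set_option autoImplicit false

namespace Pool.Agent.N545.HW

open Pool.Agent.N463.HW

lemma norm_e (k : ℕ) (τ : ℝ) : ‖Complex.exp (k * τ * Complex.I)‖ = 1 := by
  have h : (k : ℂ) * τ * Complex.I = ((k * τ : ℝ) : ℂ) * Complex.I := by push_cast; ring
  rw [h, Complex.norm_exp_ofReal_mul_I]

lemma norm_term (c : ℝ) (k : ℕ) (τ : ℝ) : ‖(c : ℂ) * Complex.exp (k * τ * Complex.I)‖ = |c| := by
  rw [norm_mul, norm_e, mul_one, Complex.norm_real, Real.norm_eq_abs]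

lemma e_per (k : ℕ) (τ : ℝ) : Complex.exp (k * ((τ + 2 * Real.pi : ℝ) : ℂ) * Complex.I) =
    Complex.exp (k * τ * Complex.I) := by
  have h : (k : ℂ) * ((τ + 2 * Real.pi : ℝ) : ℂ) * Complex.I =
      k * τ * Complex.I + k * (2 * Real.pi * Complex.I) := by push_cast; ring
  rw [h, Complex.exp_add, Complex.exp_nat_mul_two_pi_mul_I, mul_one]

theorem t_DER : S_DER := by
  intro x hx0 hx
  have hle : ∀ k : ℕ, |x k / k| ≤ |x k| := by
    intro k
    rw [abs_div]
    rcases Nat.eq_zero_or_pos k with rfl | hk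
    · simp
    · have h1 : (1 : ℝ) ≤ |(k : ℝ)| := by
        rw [abs_of_nonneg (Nat.cast_nonneg k)]
        exact_mod_cast hk
      exact div_le_self (abs_nonneg _) h1
  refine ⟨?_, ?_, ?_, ?_, ?_⟩
  · intro τ
    have h1 : Complex.I * Gs x τ =
        ∑' k : ℕ, Complex.I * ((x k : ℂ) * Complex.exp (k * τ * Complex.I)) := by
      unfold Gs
      rw [tsum_mul_left]
    rw [h1]
    refine hasDerivAt_tsum (u := fun k => |x k|)
      (g := fun (k : ℕ) (τ : ℝ) => ((x k / k : ℝ) : ℂ) * Complex.exp (k * τ * Complex.I))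
      (g' := fun (k : ℕ) (τ : ℝ) => Complex.I * ((x k : ℂ) * Complex.exp (k * τ * Complex.I)))
      (y₀ := 0) hx (fun k y => ?_) (fun k y => ?_) ?_ τ
    · have h2 : HasDerivAt (fun τ : ℝ => (k : ℂ) * (τ : ℂ) * Complex.I) ((k : ℂ) * Complex.I) y := by
        have h3 : HasDerivAt (fun τ : ℝ => (τ : ℂ)) 1 y := Complex.ofRealCLM.hasDerivAt
        have h4 := (h3.const_mul (k : ℂ)).mul_const Complex.I
        rw [mul_one] at h4
        exact h4
      have h5 := h2.cexp.const_mul ((x k / k : ℝ) : ℂ)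
      have h6 : ((x k / k : ℝ) : ℂ) * (Complex.exp ((k : ℂ) * (y : ℂ) * Complex.I) *
          ((k : ℂ) * Complex.I)) =
          Complex.I * ((x k : ℂ) * Complex.exp (k * y * Complex.I)) := by
        rcases Nat.eq_zero_or_pos k with rfl | hk
        · rw [hx0]
          simp
        · have hk0 : (k : ℂ) ≠ 0 := by exact_mod_cast hk.ne'
          push_cast
          field_simp
      rw [h6] at h5
      exact h5
    · show ‖Complex.I * ((x k : ℂ) * Complex.exp (k * y * Complex.I))‖ ≤ |x k|
      rw [norm_mul, Complex.norm_I, one_mul, norm_term]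
    · refine Summable.of_norm_bounded (g := fun k => |x k|) hx fun k => ?_
      show ‖((x k / k : ℝ) : ℂ) * Complex.exp (k * ((0 : ℝ) : ℂ) * Complex.I)‖ ≤ |x k|
      rw [norm_term]
      exact hle k
  · unfold Gs
    refine continuous_tsum (u := fun k => |x k|) (fun k => ?_) hx fun k τ => ?_
    · fun_prop
    · exact (norm_term _ _ _).le
  · intro τ
    unfold gs
    exact tsum_congr fun k => by rw [e_per]
  · intro τ
    unfold Gs
    exact tsum_congr fun k => by rw [e_per]
  · intro τ
    unfold Gs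
    refine (norm_tsum_le_tsum_norm ?_).trans (le_of_eq (tsum_congr fun k => norm_term _ _ _))
    simp only [norm_term]
    exact hx

end Pool.Agent.N545.HW
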